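import Mathlib
import Pool.Agent.H162R3.PR5

/-!
Nonmetrizable pseudoradial minimal abelian groups exist if and only if the splitting number is
larger than the first uncountable cardinal.
-/

set_option autoImplicit false

open Filter Topology Set

namespace Pool.Agent.Results.MP_7406cc_gt.SplittingNumber

/-- A well-ordered set of type `ω₁`. -/
abbrev W : Type := (Cardinal.aleph 1).ord.ToType

/-- There is no Hausdorff group topology on `G` strictly coarser than the given one. -/
def IsMinimal (G : Type) [CommGroup G] [τ : TopologicalSpace G] : Prop :=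
  ∀ t : TopologicalSpace G, τ ≤ t → @IsTopologicalGroup G t _ → @T2Space G t → t = τ

/-- Every non-closed set `A` contains a transfinite sequence converging to a point outside `A`. -/
def IsPseudoradial (G : Type) [TopologicalSpace G] : Prop :=
  ∀ A : Set G, ¬ IsClosed A →
    ∃ (ι : Type) (_ : LinearOrder ι), WellFoundedLT ι ∧ Nonempty ι ∧
      ∃ (x : ι → G) (p : G), (∀ i, x i ∈ A) ∧ p ∉ A ∧ Tendsto x atTop (𝓝 p)

/-- `G` is (isomorphic as a topological group to) a dense subgroup of `Hom(X, ℝ/ℤ)` with the
topology of pointwise convergence, for some abelian group `X`; by the duality theorems of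
Pontryagin and of Comfort and Ross these are exactly the Hausdorff precompact abelian groups. -/
def IsPrecompact (G : Type) [CommGroup G] [TopologicalSpace G] : Prop :=
  ∃ (X : Type) (_ : AddCommGroup X) (j : G → X → UnitAddCircle),
    (∀ g h, j (g * h) = j g + j h) ∧ IsEmbedding j ∧
      closure (range j) = {f | ∀ a b, f (a + b) = f a + f b}

/-- There is a splitting family of `ℵ₁` subsets of `ℕ`; that is, the splitting number `𝔰` is
`ℵ₁`. -/
def SplittingFamilyAleph1 : Prop :=
  ∃ A : W → Set ℕ, ∀ M : Set ℕ, M.Infinite → ∃ w, (M ∩ A w).Infinite ∧ (M \ A w).Infinite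

/-- The following are equivalent: there is a precompact abelian topological group that is minimal,
pseudoradial and not metrizable; the Cantor cube `{0,1} ^ ω₁` is sequentially compact; `ℵ₁` is
smaller than the splitting number. -/
theorem result :
    ((∃ (G : Type) (_ : CommGroup G) (_ : TopologicalSpace G), IsTopologicalGroup G ∧ T2Space G ∧
        IsPrecompact G ∧ IsMinimal G ∧ IsPseudoradial G ∧ ¬ TopologicalSpace.MetrizableSpace G) ↔
      SeqCompactSpace (W → Bool)) ∧
    (SeqCompactSpace (W → Bool) ↔ ¬ SplittingFamilyAleph1) := by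
  have hSC : SeqCompactSpace (W → Bool) ↔ H162R3.PR.SC W := by
    constructor
    · intro h y
      obtain ⟨a, -, φ, hφ, ha⟩ := h.isSeqCompact_univ (x := y) (fun n => mem_univ _)
      exact ⟨φ, hφ, a, ha⟩
    · intro h
      refine ⟨?_⟩
      intro y _
      obtain ⟨φ, hφ, a, ha⟩ := h y
      exact ⟨a, mem_univ _, φ, hφ, ha⟩
  refine ⟨⟨?_, ?_⟩, ⟨?_, ?_⟩⟩
  · rintro ⟨G, hG, τ, hTG, hT2, ⟨X, hX, j, hjmul, hj, hjd⟩, hmin, hps, hnm⟩
    rw [hSC]
    have hXc : ¬ Countable X := by
      intro hc
      apply hnm
      exact hj.metrizableSpace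
    let j' : Additive G →+ (X → UnitAddCircle) :=
      AddMonoidHom.mk' (fun g => j g.toMul) (fun a b => hjmul a.toMul b.toMul)
    have hj' : IsEmbedding j' := hj
    have hmin' : H162R3.PR.MinimalGrp (Additive G) := by
      intro t ht htg ht2
      refine hmin t ht ?_ ht2
      exact @IsTopologicalGroup.mk G t _ (@ContinuousMul.mk G t _ htg.continuous_add)
        (@ContinuousInv.mk G t _ htg.continuous_neg)
    obtain ⟨B, hB, hBS⟩ := H162R3.PR.SC_of_not_countable (X := X) (G := Additive G) hmin' hps j' hj'
      (fun f hf => by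
        have h1 : f ∈ closure (range j) := by rw [hjd]; exact hf
        exact h1) hXc
    exact H162R3.PR.SC_W1_of hB hBS
  · intro h
    rw [hSC] at h
    obtain ⟨X, hX, j, hj, hjd⟩ := H162R3.PR.dense_hom
    refine ⟨Multiplicative (W → ZMod 2), inferInstance, inferInstance, inferInstance, inferInstance,
      ⟨X, hX, fun g => j g.toAdd, fun a b => map_add j _ _, hj, hjd⟩, ?_,
      H162R3.PR.pseudoRadial_cube h, H162R3.PR.cube_not_metrizable⟩
    intro t ht htg ht2
    refine H162R3.PR.minimal_of_compact (G := W → ZMod 2) t ht ?_ ht2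
    exact @IsTopologicalAddGroup.mk (W → ZMod 2) t _
      (@ContinuousAdd.mk (W → ZMod 2) t _ htg.continuous_mul)
      (@ContinuousNeg.mk (W → ZMod 2) t _ htg.continuous_inv)
  · rw [hSC]
    rintro h ⟨A, hA⟩
    classical
    obtain ⟨φ, hφ, a, ha⟩ := h (fun n w => decide (n ∈ A w))
    obtain ⟨w, hw1, hw2⟩ := hA (range φ) (infinite_range_of_injective hφ.injective)
    have h1 : ∀ᶠ n in atTop, decide (φ n ∈ A w) = a w :=
      ((tendsto_pi_nhds.1 ha) w) (isOpen_discrete ({a w} : Set Bool) |>.mem_nhds rfl)
    obtain ⟨N, hN⟩ := eventually_atTop.1 h1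
    have hfin : (φ '' Iio N).Finite := (finite_Iio N).image φ
    cases hval : a w
    · apply hw1
      refine hfin.subset ?_
      rintro _ ⟨⟨n, rfl⟩, hn⟩
      refine ⟨n, ?_, rfl⟩
      by_contra hlt
      have := hN n (not_lt.1 hlt)
      rw [hval] at this
      simp [hn] at this
    · apply hw2
      refine hfin.subset ?_
      rintro _ ⟨⟨n, rfl⟩, hn⟩
      refine ⟨n, ?_, rfl⟩
      by_contra hlt
      have := hN n (not_lt.1 hlt)
      rw [hval] at this
      simp [hn] at this
  · rw [hSC]
    intro h y
    classical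
    unfold SplittingFamilyAleph1 at h
    push Not at h
    obtain ⟨M, hM, hMA⟩ := h (fun w => {n | y n w = true})
    have hφ : StrictMono (Nat.nth (· ∈ M)) := Nat.nth_strictMono hM
    have hφM : ∀ n, Nat.nth (· ∈ M) n ∈ M := fun n => Nat.nth_mem_of_infinite hM n
    have hev : ∀ F : Set ℕ, F.Finite → ∀ᶠ n in atTop, Nat.nth (· ∈ M) n ∉ F := by
      intro F hF
      have h1 : Tendsto (Nat.nth (· ∈ M)) atTop atTop := hφ.tendsto_atTop
      rw [← Nat.cofinite_eq_atTop] at h1 ⊢
      exact h1 hF.compl_mem_cofinite
    refine ⟨Nat.nth (· ∈ M), hφ, fun w => !(decide ((M ∩ {n | y n w = true}).Finite)), ?_⟩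
    rw [tendsto_pi_nhds]
    intro w
    by_cases hc : (M ∩ {n | y n w = true}).Finite
    · refine tendsto_const_nhds.congr' ?_
      filter_upwards [hev _ hc] with n hn
      have h2 : ¬ (y (Nat.nth (· ∈ M) n) w = true) := fun e => hn ⟨hφM n, e⟩
      simp only [Function.comp, hc, decide_true, Bool.not_true]
      simpa using h2
    · have hf := hMA w hc
      refine tendsto_const_nhds.congr' ?_
      filter_upwards [hev _ hf] with n hn
      have h2 : y (Nat.nth (· ∈ M) n) w = true := by
        by_contra e
        exact hn ⟨hφM n, e⟩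
      simp only [Function.comp, hc, decide_false, Bool.not_false]
      exact h2.symm

end Pool.Agent.Results.MP_7406cc_gt.SplittingNumber
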